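import Mathlib
import Pool.Agent.Lib.P4a7640E.Final
import Pool.Agent.Lib.P4a7640E.Single

/-!
# Entropies of Furstenberg systems: positivity and a Bessel inequality
-/

open MeasureTheory Filter Topology Finset
open Pool.Agent.Lib.P4a7640
open Pool.Agent.Lib.P4a7640E

namespace Pool.Agent.Results.MP_4a7640_nt.EntropyRepulsion

/-- Let `f 0 : ℕ → {-1,1}` be an arbitrary sequence and `f 1, ..., f m : ℕ → {-1,1}` such that the
functions `u i = f 0 * f i` are multiplicative and all the products `f i * f j`, `i < j`, are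
aperiodic. Let `χ i` be real Dirichlet characters, `η i ≥ 0` real numbers and `l` a filter of scales
(all `N`, or a subsequence) such that for all `c` and `δ > 0`, eventually along `l`, the sum of `1/p`
over the primes `N^(1/c) < p ≤ N` with `u i p ≠ χ i p` is at most `η i + δ`. Let
`bd η = max ((1/2) ∑ i, (log 2 - binEntropy ((1 - exp (-2 η i)) / 2)))
  (∑ i, (log 2 - binEntropy (exp (-η i))))`, where the second sum is omitted unless all `η i ≤ log 2`.

(E) For every `L` and `ε > 0`, eventually along `l`, the sum over `i = 0, ..., m` of the entropies of the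
blocks of length `L` of `f i` at the scale `N` (logarithmic weights) is at least `L * bd η - ε`.

(P) For every `L`, the sum of the logarithms of the numbers of patterns of length `L` occurring in
`f i` with positive upper logarithmic density along `l` is at least `L * bd η`.

(F) If `μ i` is the Furstenberg system of `f i` along `l` for `i = 0, ..., m`, then the sum of
the entropies of the `μ i` is at least `bd η`.

If `m ≥ 1` then `bd η > 0`.

(S) If `f i = 1` for all `i ≥ 1` (the case `m = 1`, `f 1 = 1` of a single aperiodic multiplicative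
function `f 0`), then the entropy of every Furstenberg system of `f 0` along `l` is at least `bd η`,
and `f 0` has at least `exp (L * bd η)` patterns of length `L` of positive upper logarithmic density
along `l`. -/
theorem result (m : ℕ) (f : Fin (m + 1) → ℕ → ℤˣ)
    (hf : ∀ i : Fin m, MultS fun n => f 0 n * f i.succ n)
    (hap : ∀ i j : Fin (m + 1), i < j → Aperiodic fun n => f i n * f j n)
    (q : Fin m → ℕ) (hq : ∀ i, 0 < q i) (χ : ∀ i, DirichletCharacter ℤ (q i))
    (η : Fin m → ℝ) (h0 : ∀ i, 0 ≤ η i)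
    (l : Filter ℕ) (hne : l.NeBot) (hl : l ≤ atTop)
    (htop : ∀ (i : Fin m) (c : ℕ) (δ : ℝ), 0 < δ →
      ∀ᶠ N in l, topMass c (fun n => f 0 n * f i.succ n) (χ i) N ≤ η i + δ) :
    (∀ (L : ℕ) (ε : ℝ), 0 < ε → ∀ᶠ N in l, L * bd η - ε ≤ ∑ i, Ent N (blk (f i) L)) ∧
    (∀ L : ℕ, L * bd η ≤ ∑ i, Real.log (pats (f i) l L).card) ∧
    (∀ μ : Fin (m + 1) → Measure XX, (∀ i, FurstAlong (f i) l (μ i)) →
      bd η ≤ ∑ i, hKS (μ i)) ∧
    (m ≠ 0 → 0 < bd η) ∧
    ((∀ (i : Fin m) (n : ℕ), f i.succ n = 1) →
      (∀ μ : Measure XX, FurstAlong (f 0) l μ → bd η ≤ hKS μ) ∧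
      (∀ L : ℕ, L * bd η ≤ Real.log (pats (f 0) l L).card)) :=
  have h := Pool.Agent.Lib.P4a7640E.main hf hq χ h0 hl htop hap
  ⟨h.1, h.2.1, h.2.2.1, h.2.2.2, fun h1 => Pool.Agent.Lib.P4a7640E.single hl h.1 h1⟩

end Pool.Agent.Results.MP_4a7640_nt.EntropyRepulsion
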