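import Mathlib
import Pool.Agent.Lib.P4a7640B.MainE
import Pool.Agent.Lib.P4a7640B.Den

/-!
# One predictor beats every counterexample
-/

open MeasureTheory Filter Topology
open Pool.Agent.Lib.P4a7640 Pool.Agent.Lib.P4a7640B

namespace Pool.Agent.Results.MP_4a7640_nt.OnePredictor

/-- Let `g_0, g_1, ...` be arbitrary functions `ℕ → {-1,1}`, and let `w_{N,a}`, `a < A(N)`, be arbitrary real
functions with absolute values at most `1`, where `A(N) ≤ exp (N^o(1))` (for instance all functions on `[1,N]` that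
are computed by circuits of size `N^o(1)`).

`DevN A w r ε N f`: some correlation `N⁻¹ ∑_{n ≤ N} v(n) f(n+h_1) ⋯ f(n+h_r)` with distinct `h_i ∈ [0,N]`, `v = 1` or
`v = w_{N,a}`, is greater than `ε` in absolute value; `Dev A w r ε f`: this happens for infinitely many `N`.
`Good A w f`: for no `r ≥ 1`, `ε > 0` (Chowla's conjecture in ordinary averages, uniformly in all shifts up to `N`
and in the weights), `f` is aperiodic, and the `(1/2, 1/2)` Bernoulli shift is its unique Furstenberg system.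
`Near η N f y`: the sum of `1/p` over the primes `N^η < p ≤ 2N` with `f p ≠ y p` is at most `η`.
`SlowTo f y` (`f` is in the slow class of `y`): `∑_{√N < p ≤ N, f p ≠ y p} 1/p → 0`.

There is an ABSOLUTE constant `c > 0` with the following properties; put `η = c ε³ / r²`, `0 < ε ≤ 1`.

(1) There is ONE predictor `b_p(x) ∈ [-1,1]`, a function of the signs `x_q`, `q < p`, such that for all `r`, `ε` and
`i`, all large `N`, every sequence of signs `x` and EVERY multiplicative `f` near `g_i x`: if `DevN A w r ε N f`, then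
`∑_{p ≤ M} b_p(x) x_p ≥ η π(M)` for at least `η log N` of the numbers `M = 2^k ≤ 4N`. So EVERY multiplicative `f` in
the slow class of `g_i x` is good, or `∑_{p ≤ M} b_p(x) x_p ≥ η π(M)` for infinitely many `M`, for some `η > 0`.

(2) The set of the real numbers with the binary digits `x`, for which `Dev A w r ε f` for some `i` and some
multiplicative `f` in the slow class of `g_i x`, has Hausdorff dimension at most `1 - η`.

(3) Let `ε_p` be random signs, with any dependence. If the entropy of `(ε_p)_{p ≤ M}` is at least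
`(log 2 - δ) π(M)` for all large `M`, then for all large `N` the probability that `DevN A w r e N f` for some
multiplicative `f` near `g_i ε` is at most `2 δ / η²` (`η = c e³ / r²`). If
`∑_k (log 2 - H(2^k) / π(2^k)) / k` converges, then almost surely, for every `i`, EVERY multiplicative `f` in the slow
class of `g_i ε` is good.

(4) Let `θ_p ∈ [0,1]` be odds (`θ_p` is the probability of the sign `-1` at the prime `p`), bounded away from `0`
and `1`, or such that only, for some `k` and `c > 0`, `∑_{N^(1/k) < p ≤ N} min (θ_p) (1 - θ_p) / p ≥ c` for all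
large `N`. If `ε_p` are random signs, dependent or not, such that for every prime `p` and `u = ± 1`, conditionally on
every possible value of the signs `ε_q`, `q < p`, the probability of `ε_p = u` is at most
`(1 + ρ_p)` times its probability at the odds `θ_p`, where `∑_{p ≤ M} ρ_p = o(π(M))`, then for every `r` and `e > 0`
there is `η > 0` such that the probability that `DevN A w r e N f` for some multiplicative `f` near `g_i ε` is at most
`exp (- N ^ η)` for all large `N`, and almost surely, for every `i`, EVERY multiplicative `f` in the slow class of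
`g_i ε` is good.

(5) For every `δ > 0` there are signs `x_p`, equal to `-1` on a set of primes of upper relative density at most `δ`,
such that for every `i` EVERY multiplicative `f` in the slow class of `g_i x` is good. -/
theorem result :
    (∃ c : ℝ, 0 < c ∧ ∀ (g : ℕ → ℕ → ℤˣ) (A : ℕ → ℕ), SubExp A → ∀ w : ℕ → ℕ → ℕ → ℝ,
      (∀ N a n, |w N a n| ≤ 1) →
      -- (1)
      (∃ b : ℕ → (ℕ → ℤˣ) → ℝ, IsPredictor b ∧
        (∀ (r : ℕ) (ε : ℝ), 0 < r → 0 < ε → ε ≤ 1 → ∀ i : ℕ, ∀ᶠ N : ℕ in atTop,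
          ∀ (x : ℕ → ℤˣ) (f : ℕ → ℤˣ), MultS f →
            Near (c * ε ^ 3 / r ^ 2) N f (fun p => g i p * x p) → DevN A w r ε N f →
            Often (c * ε ^ 3 / r ^ 2) N fun k =>
              c * ε ^ 3 / r ^ 2 * Nat.primeCounting (2 ^ k) ≤ gain b x (2 ^ k)) ∧
        ∀ (x : ℕ → ℤˣ) (i : ℕ) (f : ℕ → ℤˣ), MultS f → SlowTo f (fun p => g i p * x p) →
          Good A w f ∨ ∃ η : ℝ, 0 < η ∧ ∃ᶠ M : ℕ in atTop, η * Nat.primeCounting M ≤ gain b x M) ∧
      -- (2)
      (∀ (r : ℕ) (ε : ℝ), 0 < r → 0 < ε → ε ≤ 1 →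
        dimH (code '' {x | ∃ (i : ℕ) (f : ℕ → ℤˣ), MultS f ∧ SlowTo f (fun p => g i p * x p) ∧
          Dev A w r ε f}) ≤ ENNReal.ofReal (1 - c * ε ^ 3 / r ^ 2)) ∧
      -- (3)
      ∀ {Ω : Type*} [MeasurableSpace Ω] (P : Measure Ω) [IsProbabilityMeasure P] (ε : ℕ → Ω → ℤˣ),
        (∀ p, Measurable (ε p)) →
        (∀ δ : ℝ, 0 < δ →
          (∀ᶠ M : ℕ in atTop, (Real.log 2 - δ) * Nat.primeCounting M ≤ Hent P ε M) →
          ∀ (r : ℕ) (e : ℝ), 0 < r → 0 < e → e ≤ 1 → ∀ i : ℕ, ∀ᶠ N : ℕ in atTop,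
            P.real {ω | ∃ f : ℕ → ℤˣ, MultS f ∧
              Near (c * e ^ 3 / r ^ 2) N f (fun p => g i p * ε p ω) ∧ DevN A w r e N f} ≤
                2 * δ / (c * e ^ 3 / r ^ 2) ^ 2) ∧
        ((Summable fun k : ℕ => (Real.log 2 - Hent P ε (2 ^ k) / Nat.primeCounting (2 ^ k)) / k) →
          ∀ᵐ ω ∂P, ∀ (i : ℕ) (f : ℕ → ℤˣ), MultS f → SlowTo f (fun p => g i p * ε p ω) →
            Good A w f)) ∧
    ∀ (g : ℕ → ℕ → ℤˣ) (A : ℕ → ℕ), SubExp A → ∀ w : ℕ → ℕ → ℕ → ℝ, (∀ N a n, |w N a n| ≤ 1) →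
      -- (4)
      (∀ θ : ℕ → ℝ, (∀ p, 0 ≤ θ p ∧ θ p ≤ 1) →
        ((∃ δ : ℝ, 0 < δ ∧ ∀ p : ℕ, p.Prime → δ ≤ θ p ∧ θ p ≤ 1 - δ) ∨
          ∃ (k : ℕ) (c : ℝ), 0 < c ∧ ∀ᶠ N : ℕ in atTop, c ≤ ∑ p ∈ (Finset.Icc 1 N).filter
            (fun p : ℕ => p.Prime ∧ N < p ^ k), min (θ p) (1 - θ p) / (p : ℝ)) →
        ∀ {Ω : Type*} [MeasurableSpace Ω] (P : Measure Ω) [IsProbabilityMeasure P]
          (ε : ℕ → Ω → ℤˣ), (∀ p, Measurable (ε p)) → ∀ ρ : ℕ → ℝ, (∀ p, 0 ≤ ρ p) →
        (∀ δ : ℝ, 0 < δ → ∀ᶠ M : ℕ in atTop,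
          ∑ p ∈ (Finset.Icc 1 M).filter Nat.Prime, ρ p ≤ δ * Nat.primeCounting M) →
        (∀ p : ℕ, p.Prime → ∀ s : ℕ → ℤˣ, ∀ u : ℤˣ,
          P.real {ω | (∀ q : ℕ, q.Prime → q < p → ε q ω = s q) ∧ ε p ω = u} ≤
            (1 + ρ p) * (if u = 1 then 1 - θ p else θ p) *
              P.real {ω | ∀ q : ℕ, q.Prime → q < p → ε q ω = s q}) →
        (∀ (r : ℕ) (e : ℝ), 0 < r → 0 < e → ∃ η : ℝ, 0 < η ∧ ∀ i : ℕ, ∀ᶠ N : ℕ in atTop,
          P.real {ω | ∃ f : ℕ → ℤˣ, MultS f ∧ Near η N f (fun p => g i p * ε p ω) ∧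
            DevN A w r e N f} ≤ Real.exp (-(N : ℝ) ^ η)) ∧
        ∀ᵐ ω ∂P, ∀ (i : ℕ) (f : ℕ → ℤˣ), MultS f → SlowTo f (fun p => g i p * ε p ω) →
          Good A w f) ∧
      -- (5)
      ∀ δ : ℝ, 0 < δ → ∃ x : ℕ → ℤˣ,
        (∀ᶠ M : ℕ in atTop, (((Finset.Icc 1 M).filter fun p : ℕ => p.Prime ∧ x p = -1).card : ℝ) ≤
          δ * Nat.primeCounting M) ∧
        ∀ (i : ℕ) (f : ℕ → ℤˣ), MultS f → SlowTo f (fun p => g i p * x p) → Good A w f := by
  refine ⟨?_, ?_⟩
  · obtain ⟨c, hc, h⟩ := main_fair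
    refine ⟨c, hc, fun g A hA w hw => ?_⟩
    obtain ⟨K, hK, hK1, hdim⟩ := h g A hA w hw
    obtain ⟨b, hb, hKb⟩ := exists_predictor hK
    have hpred : ∀ (η : ℝ) (x : ℕ → ℤˣ) (M : ℕ), Real.exp (η * Nat.primeCounting M) ≤ K M x →
        η * Nat.primeCounting M ≤ gain b x M := fun η x M hM =>
      Real.exp_le_exp.1 (hM.trans (hKb x M))
    have hall := rate_all hc hK1
    refine ⟨⟨b, hb, fun r ε hr hε hε1 i => ?_, fun x i f hf hs => ?_⟩, hdim, ?_⟩
    · filter_upwards [hK1 r ε hr hε hε1 i] with N hN x f hf hn hd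
      exact often_mono (hN x f hf hn hd) le_rfl fun k hk => hpred _ x _ hk
    · rcases good_or hall x i hf hs with h1 | ⟨η, hη, h1⟩
      · exact Or.inl h1
      · exact Or.inr ⟨η, hη, h1.mono fun M hM => hpred η x M hM⟩
    · intro Ω _ P _ ε hε
      refine ⟨fun δ hδ hH r e hr he he1 i => ?_, fun hH => mainP_ae hK hall hε hH⟩
      have hr' : (0 : ℝ) < r := by exact_mod_cast hr
      exact mainE_prob hK (by positivity) (hK1 r e hr he he1 i) hε hδ hH
  · intro g A hA w hw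
    refine ⟨fun θ hθ hk => ?_, fun δ hδ => exists_good hA hw hδ⟩
    obtain ⟨K, hK, -, hr1, h⟩ := mainP_strategy hθ hk g hA hw
    intro Ω _ P _ ε hε ρ hρ0 hρ hP
    constructor
    · intro r e hr he
      obtain ⟨η, hη, h1⟩ := hr1 r e hr he
      refine ⟨η / 2, by positivity, fun i => ?_⟩
      filter_upwards [mainE_exp hK hη (h1 i) hρ hP, eventually_ge_atTop 1] with N hN hN1
      refine le_trans (measureReal_mono ?_ (measure_ne_top _ _)) hN
      rintro ω ⟨f, hf, h2, h3⟩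
      exact ⟨f, hf, near_mono (by linarith) hN1 h2, h3⟩
    · filter_upwards [ae_not_wins (fun p => (hθ p).1) (fun p => (hθ p).2) hK hε hρ0 hρ hP]
        with ω hω i f hf hs
      exact (h _ i f hf hs).resolve_right hω

end Pool.Agent.Results.MP_4a7640_nt.OnePredictor
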