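import Mathlib
import Pool.Agent.Lib.P4a7640Q.Base
import Pool.Agent.Lib.P4a7640Q.One

/-!
# Multiplicative functions whose value at a prime depends on its residue class
-/

open Finset Filter Topology MeasureTheory
open Pool.Agent.Lib.P4a7640 Pool.Agent.Lib.P4a7640C Pool.Agent.Lib.P4a7640S
open Pool.Agent.Lib.P4a7640E Pool.Agent.Lib.P4a7640Q

namespace Pool.Agent.Results.MP_4a7640_nt.ResidueClasses

/-- Let `ψ : (ℤ/q)ˣ → {-1,1}` be any function; `ResU ψ u`: `u` is multiplicative and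
`u(p) = ψ(p mod q)` for all primes `p` not dividing `q`. Let `l` be a filter of scales `N → ∞` (all `N`,
or a subsequence) and `J` a set of `L` shifts. A sign pattern on `J` occurs in `f` if it is the pattern
`(f(n+j))_{j ∈ J}` for a set of `n` of positive upper logarithmic density along `l`.

Let `φ` be a real character mod `q`, `κ` the proportion of the classes on which `ψ` and `φ` differ,
and `0 < κ < 1/2`. For example `f(p) = -1` exactly for `p ≡ 1 mod 101`: `κ = 1/100`.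

(1) Let `ResU ψ f`. Then `f` is aperiodic. If `α < 1/(1 + 4κ)` and `L ≥ L₀(α, q, ψ)`, then more than `exp (L^α)` sign patterns
on `J` occur in `f`, and `J` has a subset `J'` of at least `L^α` elements on which all `2^|J'|` sign
patterns occur. If `γ < (1 - 2κ)/(1 + 2κ)` and `L ≥ L₀(γ, q, ψ)`, then every Furstenberg system `μ` of
`f` has `H_J(μ) ≥ L^γ`, where `H_J` is the entropy of the coordinates in `J`.

(2) Let `f, g` be arbitrary with `ResU ψ (f g)`. Then the same holds for `f` and `g` together (`Rich`,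
`EntBd`): for the product of the numbers of patterns, with all patterns on some `J'` occurring in `f` or
all in `g`, and for the sum of the entropies.

(3) If `ψ` is not `±` a homomorphism and `ResU ψ (f g)`, then `Rich f g l J α` holds for `α < 1/4` and
`L ≥ L₀(α, q, ψ)`. -/
theorem result (q : ℕ) [NeZero q] (ψ : (ZMod q)ˣ → ℤˣ) :
    (∀ (φ : (ZMod q)ˣ →* ℤˣ) (κ : ℝ),
      κ = ((univ.filter fun a => ψ a ≠ φ a).card : ℝ) / q.totient → 0 < κ → κ < 1 / 2 →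
      (∀ f : ℕ → ℤˣ, ResU ψ f → Aperiodic f) ∧
      (∀ α : ℝ, α * (1 + 4 * κ) < 1 → ∃ L₀ : ℕ, ∀ f : ℕ → ℤˣ, ResU ψ f →
        ∀ l : Filter ℕ, l.NeBot → l ≤ atTop → ∀ J : Finset ℕ, L₀ ≤ J.card →
          Real.exp ((J.card : ℝ) ^ α) < ((patJ f l J).card : ℝ) ∧
            ∃ J' ⊆ J, (J.card : ℝ) ^ α ≤ J'.card ∧ ∀ x : J' → ℤˣ, x ∈ patJ f l J') ∧
      (∀ γ : ℝ, γ < (1 - 2 * κ) / (1 + 2 * κ) → ∃ L₀ : ℕ, ∀ f : ℕ → ℤˣ, ResU ψ f →
        ∀ l : Filter ℕ, l.NeBot → l ≤ atTop → ∀ J : Finset ℕ, L₀ ≤ J.card →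
          ∀ μ : Measure XX, FurstAlong f l μ → (J.card : ℝ) ^ γ ≤ HMJ μ J) ∧
      (∀ α : ℝ, α * (1 + 4 * κ) < 1 → ∃ L₀ : ℕ, ∀ f g : ℕ → ℤˣ, ResU ψ (fun n => f n * g n) →
        ∀ l : Filter ℕ, l.NeBot → l ≤ atTop → ∀ J : Finset ℕ, L₀ ≤ J.card → Rich f g l J α) ∧
      (∀ γ : ℝ, γ < (1 - 2 * κ) / (1 + 2 * κ) → ∃ L₀ : ℕ, ∀ f g : ℕ → ℤˣ,
        ResU ψ (fun n => f n * g n) → ∀ l : Filter ℕ, l.NeBot → l ≤ atTop → ∀ J : Finset ℕ,
          L₀ ≤ J.card → EntBd f g l J ((J.card : ℝ) ^ γ))) ∧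
    ((∀ (φ : (ZMod q)ˣ →* ℤˣ) (s : ℤˣ), ∃ a, ψ a ≠ s * φ a) → ∀ α : ℝ, α < 1 / 4 →
      ∃ L₀ : ℕ, ∀ f g : ℕ → ℤˣ, ResU ψ (fun n => f n * g n) →
        ∀ l : Filter ℕ, l.NeBot → l ≤ atTop → ∀ J : Finset ℕ, L₀ ≤ J.card → Rich f g l J α) := by
  have hone : ∀ {f : ℕ → ℤˣ}, ResU ψ f → ResU ψ (fun n => f n * (fun _ => (1 : ℤˣ)) n) := by
    intro f hf
    have h1 : (fun n => f n * (fun _ => (1 : ℤˣ)) n) = f := by
      funext n
      exact mul_one _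
    rw [h1]
    exact hf
  constructor
  · intro φ κ hκ h0 h1
    have hk : kap ψ φ = κ := hκ.symm
    have hrich : ∀ α : ℝ, α * (1 + 4 * κ) < 1 → ∃ L₀ : ℕ, ∀ f g : ℕ → ℤˣ,
        ResU ψ (fun n => f n * g n) → ∀ l : Filter ℕ, l.NeBot → l ≤ atTop → ∀ J : Finset ℕ,
        L₀ ≤ J.card → Rich f g l J α := by
      intro α hα
      obtain ⟨L₀, h⟩ := rich (ψ := ψ) (φ := φ) (by rw [hk]; exact h0) (by rw [hk]; exact h1)
        (α := α) (by rw [hk]; exact hα)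
      exact ⟨L₀, fun f g hu l hne hl J hJ => h f g hu.1 hu.2 l hne hl J hJ⟩
    have hent : ∀ γ : ℝ, γ < (1 - 2 * κ) / (1 + 2 * κ) → ∃ L₀ : ℕ, ∀ f g : ℕ → ℤˣ,
        ResU ψ (fun n => f n * g n) → ∀ l : Filter ℕ, l.NeBot → l ≤ atTop → ∀ J : Finset ℕ,
        L₀ ≤ J.card → EntBd f g l J ((J.card : ℝ) ^ γ) := by
      intro γ hγ
      obtain ⟨L₀, h⟩ := ent (ψ := ψ) (φ := φ) (by rw [hk]; exact h0) (by rw [hk]; exact h1)
        (γ := γ) (by rw [hk]; exact hγ)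
      exact ⟨L₀, fun f g hu l hne hl J hJ => h f g hu.1 hu.2 l hne hl J hJ⟩
    refine ⟨fun f hf => aper_cong f ψ hf.2 (not_hom (by rw [hk]; exact h0) (by rw [hk]; exact h1)),
      fun α hα => ?_, fun γ hγ => ?_, hrich, hent⟩
    · obtain ⟨L₀, h⟩ := hrich α hα
      refine ⟨max L₀ 1, fun f hf l hne hl J hJ => ?_⟩
      exact rich_one ((le_max_right _ _).trans hJ)
        (h f (fun _ => 1) (hone hf) l hne hl J ((le_max_left _ _).trans hJ))
    · obtain ⟨L₀, h⟩ := hent γ hγ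
      exact ⟨L₀, fun f hf l hne hl J hJ μ hμ =>
        ent_one hne hl (h f (fun _ => 1) (hone hf) l hne hl J hJ) hμ⟩
  · intro hψ α hα
    obtain ⟨L₀, h⟩ := corQ (q := q) hα
    exact ⟨L₀, fun f g hu l hne hl J hJ => h f g hu.1 ψ hu.2 hψ l hne hl J hJ⟩

end Pool.Agent.Results.MP_4a7640_nt.ResidueClasses
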