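import Mathlib
import Pool.Agent.Lib.P4a7640X.ConX
import Pool.Agent.Lib.P4a7640X.Fin5

/-!
# A metric theorem of Weyl and Koksma type for the Chowla conjecture
-/

open MeasureTheory Filter Topology
open Pool.Agent.Lib.P4a7640
open Pool.Agent.Lib.P4a7640X

namespace Pool.Agent.Results.MP_4a7640_nt.WeylMetric

open Classical in
/-- Let `g(p) = ±1` (`p` prime) be any signs. In (1) and (2) let `a_p` (`p` prime) be any real numbers
with `|a_p - a_q| ≥ d > 0` for `p ≠ q`.

(1) For Lebesgue almost every real `α` and for all real `β` the following holds. Every multiplicative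
`f : ℕ → {-1,1}` which is slowly close to `g(p) (-1)^⌊α a_p + β⌋`, that is, the sum of `1/p` over the
primes `√N < p ≤ N` with `f(p) ≠ g(p) (-1)^⌊α a_p + β⌋` tends to zero, is aperiodic, has a unique
Furstenberg system, the `(1/2, 1/2)` Bernoulli shift, and for every nonempty finite `H` the averages over
`n ≤ N` of `∏_{h ∈ H} f(n+h)` tend to zero. If `f(p) = g(p) (-1)^⌊α a_p + β⌋` for all primes `p`, then the
logarithmic averages of `∏_{h ∈ H} f(n+h)` are at most `exp (-c √(log log N))` for large `N`, where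
`c = c(H) > 0` does not depend on `α`, `β`, `f`.

(2) Let `w : ℕ → ℝ` be bounded. For Lebesgue almost every real `α` and for all finite unions `A` of
intervals with `0 < |A ∩ [0,1)| < 1`, let `x(p) = -1` if the fractional part of `α a_p` lies in `A`, and
`x(p) = 1` otherwise. Every multiplicative `f : ℕ → {-1,1}` that is slowly close to `g x χ` for some
Dirichlet character `χ` (`SlowD`) is aperiodic, has the `(1/2, 1/2)` Bernoulli shift as unique
Furstenberg system, is independent of `w` (`Fair`), and the averages over `n ≤ N` of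
`w(n) ∏_{h ∈ H} f(n+h)` tend to zero (`Chowla`). If `f(p) = g(p) x(p)` for all primes `p`, then the
logarithmic averages of `w(n) ∏_{h ∈ H} f(n+h)` are at most `exp (-c √(log log N))` for large `N`, where
`c = c(A, H) > 0` does not depend on `α` (`Rate`).

(3) Let now `a_p` be real numbers such that at most `K N^(1-κ)` of the `a_p`, `p ≤ N`, lie in any
interval `[t, t+1)`, let `A_p` be any unions of at most `k` intervals, let
`M(N) = ∑_{p ≤ N} min (|A_p ∩ [0,1)|, 1 - |A_p ∩ [0,1)|) / p`, and let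
`M(N) / (log log log N)^2 → ∞`. Let `w : ℕ → ℝ` be bounded. Then for Lebesgue almost every real `α`,
with `x(p) = -1` if the fractional part of `α a_p` lies in `A_p`, and `x(p) = 1` otherwise, every
multiplicative `f` at finite distance from `g x χ` for some Dirichlet character `χ` (`FinD`) is
aperiodic, has the `(1/2, 1/2)` Bernoulli shift as unique Furstenberg system, and is independent of
`w`, and the last assertion of (2) holds with the rate `exp (-c √(M(N)))`. If moreover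
`δ ≤ |A_p ∩ [0,1)| ≤ 1 - δ` for some `δ > 0` and all primes `p`, then (2) holds for this `x`.

Proof. (3), and the rates: the second moment over `α` of a correlation is bounded by cutting the
`α`-axis into short arcs (on which `α a_p` is replaced by `α ⌊a_p⌋` plus a constant), by decoupling the
small and the large primes (pigeonhole on the fractional parts), by a Gowers norm for the primes in a
window, and by Brun's sieve; the sets `A` are approximated by finitely many sets with endpoints on a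
grid. The slow class: the integers are sorted by their smooth parts, and a high moment of the sum over
each class is bounded. -/
theorem result (g : ℕ → ℤˣ) :
    (∀ (a : ℕ → ℝ) (d : ℝ), 0 < d →
      (∀ p q : ℕ, p.Prime → q.Prime → p ≠ q → d ≤ |a p - a q|) →
      ∃ c : Finset ℕ → ℝ, (∀ H, 0 < c H) ∧ ∀ᵐ α : ℝ, ∀ (β : ℝ) (f : ℕ → ℤˣ), MultS f →
        (Tendsto (fun N : ℕ => ∑ p ∈ (Finset.Icc 1 N).filter (fun p : ℕ => p.Prime ∧ N < p ^ 2 ∧
            f p ≠ g p * (-1) ^ ⌊α * a p + β⌋), (1:ℝ) / p) atTop (𝓝 0) →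
          Aperiodic f ∧ FairSystem f ∧ ∀ H : Finset ℕ, H.Nonempty → Tendsto (fun N : ℕ =>
            (∑ n ∈ Finset.Icc 1 N, ∏ h ∈ H, ((f (n + h) : ℤ) : ℝ)) / N) atTop (𝓝 0)) ∧
        ((∀ p : ℕ, p.Prime → f p = g p * (-1) ^ ⌊α * a p + β⌋) →
          ∀ H : Finset ℕ, H.Nonempty → ∀ᶠ N : ℕ in atTop,
            |(∑ n ∈ Finset.Icc 1 N, (∏ h ∈ H, ((f (n + h) : ℤ) : ℝ)) / n) / Real.log N| ≤
              Real.exp (-(c H * Real.sqrt (Real.log (Real.log N)))))) ∧
    (∀ (a : ℕ → ℝ) (d : ℝ) (w : ℕ → ℝ) (C : ℝ), 0 < d →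
      (∀ p q : ℕ, p.Prime → q.Prime → p ≠ q → d ≤ |a p - a q|) → (∀ n, |w n| ≤ C) →
      ∃ c : Set ℝ → Finset ℕ → ℝ, (∀ A H, 0 < c A H) ∧ ∀ᵐ α : ℝ, ∀ A : Set ℝ,
        (∃ s : Finset (Set ℝ), (∀ J ∈ s, J.OrdConnected) ∧ A = ⋃ J ∈ s, J) →
        0 < volume (A ∩ Set.Ico (0:ℝ) 1) → volume (A ∩ Set.Ico (0:ℝ) 1) < 1 →
        ∀ x : ℕ → ℤˣ, (∀ p : ℕ, p.Prime → (x p = -1 ↔ Int.fract (α * a p) ∈ A)) →
          (∀ f : ℕ → ℤˣ, MultS f → SlowD (fun p => g p * x p) f → Fair w f ∧ Chowla w f) ∧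
          Rate w (fun N => Real.log (Real.log N)) (c A) (fun p => g p * x p)) ∧
    (∀ (k : ℕ) (K κ : ℝ) (a : ℕ → ℝ) (A : ℕ → Set ℝ) (M w : ℕ → ℝ) (C : ℝ), 0 < κ →
      (∀ (t : ℝ) (N : ℕ),
        ({p : ℕ | p.Prime ∧ p ≤ N ∧ t ≤ a p ∧ a p < t + 1}.ncard : ℝ) ≤
          K * (N : ℝ) ^ (1 - κ)) →
      (∀ p : ℕ, p.Prime → ∃ s : Finset (Set ℝ), s.card ≤ k ∧ (∀ J ∈ s, J.OrdConnected) ∧
        A p = ⋃ J ∈ s, J) →
      (∀ N, M N = ∑ p ∈ (Finset.Icc 1 N).filter Nat.Prime,
        min (volume (A p ∩ Set.Ico (0:ℝ) 1)).toReal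
          (1 - (volume (A p ∩ Set.Ico (0:ℝ) 1)).toReal) / p) →
      Tendsto (fun N : ℕ => M N / Real.log (Real.log (Real.log N)) ^ 2) atTop atTop →
      (∀ n, |w n| ≤ C) →
      ∃ c : Finset ℕ → ℝ, (∀ H, 0 < c H) ∧ ∀ᵐ α : ℝ, ∀ x : ℕ → ℤˣ,
        (∀ p : ℕ, p.Prime → (x p = -1 ↔ Int.fract (α * a p) ∈ A p)) →
          (∀ f : ℕ → ℤˣ, MultS f → FinD (fun p => g p * x p) f → Fair w f) ∧
          Rate w M c (fun p => g p * x p) ∧
          ((∃ δ : ℝ, 0 < δ ∧ ∀ p : ℕ, p.Prime → δ ≤ (volume (A p ∩ Set.Ico (0:ℝ) 1)).toReal ∧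
              (volume (A p ∩ Set.Ico (0:ℝ) 1)).toReal ≤ 1 - δ) →
            ∀ f : ℕ → ℤˣ, MultS f → SlowD (fun p => g p * x p) f → Fair w f ∧ Chowla w f)) :=
  ⟨fun a d hd hsep => part_one g a hd hsep, fun a d w C hd hsep hw => part_two g a hd hsep hw,
    fun k K κ a A M w C hκ hK hA hMdef hM hw => part_three g k K κ a A hκ hK hA M hMdef hM hw⟩

end Pool.Agent.Results.MP_4a7640_nt.WeylMetric
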